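import Pool.Agent.H452Z.FjMain

set_option autoImplicit false

namespace Pool.Agent.Results.MP_c466d4_an.AHardyNorms

open Pool.Agent.Helper418.FE Pool.Agent.H452Z.Fj
open scoped ENNReal

/-- The norms of `I - K_n` (every `n`) and of `I - P_r` (every `0 ≤ r < 1`) equal `2 / √3` on `H^1`
and the fourth root of the golden ratio on `H^4`; and for every `1 ≤ p < ∞` the norm of `I - P_r`
on `H^p` equals the norm of `I - K_0` on `H^p`. -/
theorem result :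
    (∀ n : ℕ, IsNormOnHardy (fejer n) 1 (2 / √3) ∧
      IsNormOnHardy (fejer n) 4 (((1 + √5) / 2) ^ ((1 : ℝ) / 4))) ∧
    (∀ r : ℝ, 0 ≤ r → r < 1 → IsNormOnHardy (poisson r) 1 (2 / √3) ∧
      IsNormOnHardy (poisson r) 4 (((1 + √5) / 2) ^ ((1 : ℝ) / 4))) ∧
    (∀ p : ℝ≥0∞, 1 ≤ p → p ≠ ∞ → ∃ c : ℝ, IsNormOnHardy (fejer 0) p c ∧
      ∀ r : ℝ, 0 ≤ r → r < 1 → IsNormOnHardy (poisson r) p c) :=
  Pool.Agent.H452Z.Bcap.fj_main

end Pool.Agent.Results.MP_c466d4_an.AHardyNorms
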